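import Pool.Agent.Q155.NL.Stm

/-! Lemma job NL-ASY for helper155: the final asymptotics (after `Pool.Agent.Q283.GM.ASY`). -/

set_option autoImplicit false

open scoped Classical

namespace Pool.Agent.Q34.NL

open Finset Filter
open Q283.GM (Fam Ok SS RR few sml_many sml_cut sml_coll sml_few)
open Pool.Agent.Y703.CX (sm la jj XX eL zz kk S_SIE eL_tendsto logX_eq rpow_eL HH NN ev_eL one_le_exp
  HH_ge HH_le HH_pos kk_ge kk_le X_pos one_add_log lin_le kap zz_ge zz_pos kap_nonneg kap_pow kap_le)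
open Pool.Agent.Y703.CQ (Sml sml_of sml_add sml_rpow)
open Pool.Agent.Y687.JQ (sml_mainJ sml_sum)
open Q155.NL

/-- the sets outside the regular part -/
theorem out_sub (Φ : Fam) (N : Finset ℕ → Finset ℕ → Prop) (X z H k : ℕ) :
    SS Φ X \ ((RR Φ X z H k 0).filter fun S => N (sm z S) (la z S)) ⊆
      ((((((SS Φ X).filter fun S => k < S.card) ∪
      ((SS Φ X).filter fun S => S.card ≤ k ∧
        X < (∏ p ∈ sm z S, p) * ∏ p ∈ la z S, XX H (jj H p))) ∪
      ((SS Φ X).filter fun S => ¬ Set.InjOn (jj H) (la z S : Set ℕ))) ∪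
      few Φ X z 1 Φ.A) ∪ few Φ X z 1 Φ.B) ∪
      ((SS Φ X).filter fun S => S.card ≤ k ∧ ¬ N (sm z S) (la z S)) := by
  intro S hS
  rw [Finset.mem_sdiff, Finset.mem_filter] at hS
  obtain ⟨h1, h2⟩ := hS
  by_contra hc
  rw [mem_union, mem_union, mem_union, mem_union, mem_union] at hc
  simp only [few, mem_filter] at hc
  push Not at hc
  obtain ⟨⟨⟨⟨⟨c1, c2⟩, c3⟩, c4⟩, c4'⟩, c5⟩ := hc
  have d1 : S.card ≤ k := c1 h1
  have d2 := c2 h1 d1
  have d3 := c3 h1
  have d4 := c4 h1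
  have d4' := c4' h1
  have d5 := c5 h1 d1
  apply h2
  refine ⟨?_, d5⟩
  unfold RR
  rw [mem_filter]
  refine ⟨h1, d3, d1, d2, by omega, ?_⟩
  have h3 : 0 < ((la z S).filter fun p => Φ.B p).card := by omega
  rw [card_pos] at h3
  obtain ⟨p, hp⟩ := h3
  rw [mem_filter] at hp
  exact ⟨p, hp.1, fun h => Φ.dis p h hp.2⟩

/-- **NL-ASY.** -/
theorem asy : S_ASY := by
  intro hKEY hBAD Φ δ hΦ T W hW hBX
  obtain ⟨c, X₀, hc, hlow⟩ := hΦ.low
  have hdp := hΦ.pos
  rw [Metric.tendsto_nhds]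
  intro ε hε
  obtain ⟨A, R, hB⟩ := hBX (ε / 4) (by linarith)
  obtain ⟨C, hC1, hkey⟩ := hKEY Φ
  have s1 := sml_many Φ (t := 1 - δ) (by linarith)
  have s2 := sml_cut Φ (t := 1 - δ) (by linarith)
  have s3 := sml_coll Φ (t := 1 - δ) (by linarith)
  have s4 := sml_few hΦ (w := Φ.A) (fun p h => Or.inl h) hΦ.act 1
  have s4' := sml_few hΦ (w := Φ.B) (fun p h => Or.inr h) hΦ.pas 1
  have s5 := hBAD Φ δ hΦ A R W hW
  have s6 := sml_mainJ hC1 (t := 1 - δ) (by linarith)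
  have s := sml_add (sml_add (sml_add (sml_add (sml_add (sml_add s1 s2) s3) s4) s4') s5) s6
  have hδ : (0 : ℝ) < c * ε / 4 := by positivity
  obtain ⟨WB, hWB⟩ : ∃ B : ℕ, ∀ u ∈ W, u ≤ B := ⟨W.sup id, fun u hu => Finset.le_sup (f := id) hu⟩
  have hzt : ∀ᶠ X : ℕ in atTop, WB ≤ zz X := by
    filter_upwards [ev_eL (WB + 1)] with X hX
    have h0 : (1 : ℝ) ≤ eL X := by
      have : (0 : ℝ) ≤ WB := Nat.cast_nonneg _
      linarith
    unfold zz
    apply Nat.le_floor
    have h2 : (WB : ℝ) ≤ (eL X) ^ 3 := by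
      have h3 : (1 : ℝ) * eL X ≤ (eL X) ^ 2 * eL X := by
        apply mul_le_mul_of_nonneg_right _ (by linarith)
        nlinarith
      have h4 : (eL X) ^ 3 = (eL X) ^ 2 * eL X := by ring
      linarith
    have h3 := Real.add_one_le_exp ((eL X) ^ 3)
    linarith
  have hkt : ∀ n : ℕ, ∀ᶠ X : ℕ in atTop, n ≤ kk X := by
    intro n
    filter_upwards [ev_eL (n + 1)] with X hX
    have h2 := kk_ge X
    have h0 : (0 : ℝ) ≤ n := Nat.cast_nonneg _
    have : (n : ℝ) ≤ kk X := by linarith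
    exact_mod_cast this
  filter_upwards [s (c * ε / 4) hδ, ev_eL 1, eventually_ge_atTop X₀, hzt, hkt W.card,
    hkt 1] with X hX hl hX0 hz hk hkM
  have hl0 : 0 < eL X := by linarith
  have hlo := hlow X hX0
  have e00 : (-1 + δ : ℝ) = -(1 - δ) := by ring
  rw [e00, rpow_eL hl0] at hlo
  have hXp := X_pos hl0
  have hXp' : (0 : ℝ) < X := by exact_mod_cast hXp
  have hSpos : (0 : ℝ) < ((SS Φ X).card : ℝ) := by
    refine lt_of_lt_of_le ?_ hlo
    positivity
  have hN : (HH X : ℝ) * Real.log X < NN X := by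
    unfold NN
    push_cast
    exact Nat.lt_floor_add_one _
  have hmain := hkey (Rg Φ A R W) T W (ε / 4) (by linarith) hB X (zz X) (HH X) (kk X) 0 (NN X)
    (kap C X) (fun u hu => (hWB u hu).trans hz) hk hkM hXp (HH_pos hl0) (zz_pos hl)
    (kap_nonneg hC1 X) (kap_pow hC1 hl) hN
  set Q := (RR Φ X (zz X) (HH X) (kk X) 0).filter fun S =>
    Rg Φ A R W (sm (zz X) S) (la (zz X) S) with hQ
  have hQS : Q ⊆ SS Φ X := (filter_subset _ _).trans (filter_subset _ _)
  have hTG : (((RR Φ X (zz X) (HH X) (kk X) 0).filter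
      (fun S => Rg Φ A R W (sm (zz X) S) (la (zz X) S) ∧ T S)).card : ℝ) ≤
        (((SS Φ X).filter T).card : ℝ) := by
    have h1 : (RR Φ X (zz X) (HH X) (kk X) 0).filter
      (fun S => Rg Φ A R W (sm (zz X) S) (la (zz X) S) ∧ T S) ⊆ (SS Φ X).filter T := by
      intro S hS
      rw [mem_filter] at hS ⊢
      exact ⟨(filter_subset _ _) hS.1, hS.2.2⟩
    exact_mod_cast card_le_card h1
  have hRS : ((RR Φ X (zz X) (HH X) (kk X) 0).card : ℝ) ≤ ((SS Φ X).card : ℝ) := by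
    exact_mod_cast card_le_card (filter_subset _ _)
  have hout : ((SS Φ X \ Q).card : ℝ) ≤
      ((((SS Φ X).filter fun S => kk X < S.card).card : ℝ) +
      (((SS Φ X).filter fun S => S.card ≤ kk X ∧
        X < (∏ p ∈ sm (zz X) S, p) * ∏ p ∈ la (zz X) S, XX (HH X) (jj (HH X) p)).card : ℝ) +
      (((SS Φ X).filter fun S => ¬ Set.InjOn (jj (HH X)) (la (zz X) S : Set ℕ)).card : ℝ) +
      ((few Φ X (zz X) 1 Φ.A).card : ℝ) + ((few Φ X (zz X) 1 Φ.B).card : ℝ)) +
      (((SS Φ X).filter fun S => S.card ≤ kk X ∧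
        ¬ Rg Φ A R W (sm (zz X) S) (la (zz X) S)).card : ℝ) := by
    have g := card_le_card (out_sub Φ (Rg Φ A R W) X (zz X) (HH X) (kk X))
    rw [← hQ] at g
    have g2 := ((g.trans (card_union_le _ _)).trans (Nat.add_le_add_right
      ((card_union_le _ _).trans (Nat.add_le_add_right ((card_union_le _ _).trans
      (Nat.add_le_add_right ((card_union_le _ _).trans
      (Nat.add_le_add_right (card_union_le _ _) _)) _)) _)) _))
    exact_mod_cast g2
  have hsplit : ((SS Φ X).card : ℝ) = ((SS Φ X \ Q).card : ℝ) + (Q.card : ℝ) := by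
    have h1 := card_sdiff_add_card_eq_card hQS
    exact_mod_cast h1.symm
  have htot : ((SS Φ X).card : ℝ) - (((SS Φ X).filter T).card : ℝ) ≤
      ε / 4 * ((SS Φ X).card : ℝ) +
        c * ε / 4 * (X * Real.exp (-(1 - δ) * eL X)) := by
    have g1 : ε / 4 * ((RR Φ X (zz X) (HH X) (kk X) 0).card : ℝ) ≤
        ε / 4 * ((SS Φ X).card : ℝ) := mul_le_mul_of_nonneg_left hRS (by positivity)
    change _ + ((few Φ X (zz X) 1 Φ.A).card : ℝ) + ((few Φ X (zz X) 1 Φ.B).card : ℝ) +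
      _ + _ ≤ _ at hX
    linarith
  have hTle : (((SS Φ X).filter T).card : ℝ) ≤ ((SS Φ X).card : ℝ) := by
    exact_mod_cast card_le_card (filter_subset _ _)
  rw [Real.dist_eq]
  have e3 : (((SS Φ X).filter T).card : ℝ) / ((SS Φ X).card : ℝ) - 1 =
      - ((((SS Φ X).card : ℝ) - (((SS Φ X).filter T).card : ℝ)) /
        ((SS Φ X).card : ℝ)) := by
    field_simp
    ring
  rw [e3, abs_neg, abs_of_nonneg (div_nonneg (by linarith) hSpos.le), div_lt_iff₀ hSpos]
  refine lt_of_le_of_lt htot ?_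
  have g2 : c * ε / 4 * (X * Real.exp (-(1 - δ) * eL X)) ≤ ε / 4 * ((SS Φ X).card : ℝ) := by
    calc c * ε / 4 * (X * Real.exp (-(1 - δ) * eL X)) =
          ε / 4 * (c * X * Real.exp (-(1 - δ) * eL X)) := by ring
      _ ≤ _ := mul_le_mul_of_nonneg_left hlo (by linarith)
  have g4 : 0 < ε * ((SS Φ X).card : ℝ) := by positivity
  linarith

end Pool.Agent.Q34.NL
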